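import Pool.Agent.LE.StmtsQG

/-!
# LQF, row LMU: the part of `Λ`
-/

set_option autoImplicit false

open scoped BigOperators

noncomputable section

namespace Pool.Agent.LE.QF.H65

theorem lmu_pow {x : ℝ} (hx : 0 ≤ x) {n : ℕ} (hn : 1 ≤ n) :
    x ^ (n - 1) ≤ 4 * (x ^ n + (1 / 4) ^ n) ∧
      x ^ (n - 1) * Real.sqrt x ≤ 2 * (x ^ n + (1 / 4) ^ n) := by
  obtain ⟨m, rfl⟩ : ∃ m, n = m + 1 := ⟨n - 1, by omega⟩
  rw [Nat.add_sub_cancel, pow_succ, pow_succ]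
  have h0 : 0 ≤ x ^ m := pow_nonneg hx m
  have h1 : (0 : ℝ) ≤ (1 / 4) ^ m := by positivity
  by_cases h : 1 / 4 ≤ x
  · have hs : Real.sqrt x ≤ 2 * x := by
      refine Real.sqrt_le_iff.2 ⟨by linarith, by nlinarith⟩
    constructor
    · nlinarith [mul_le_mul_of_nonneg_left h h0]
    · nlinarith [mul_le_mul_of_nonneg_left hs h0]
  · push Not at h
    have h2 : x ^ m ≤ (1 / 4) ^ m := pow_le_pow_left₀ hx h.le m
    have hs : Real.sqrt x ≤ 1 / 2 := by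
      refine Real.sqrt_le_iff.2 ⟨by norm_num, by linarith⟩
    have hs0 := Real.sqrt_nonneg x
    constructor
    · nlinarith [mul_nonneg h0 hx]
    · nlinarith [mul_nonneg h0 hx, mul_le_mul h2 hs hs0 h1]

theorem lmu_term {v l G L d c κ L₀ ϵ : ℝ} {n : ℕ} (hc : 0 ≤ c) (hκ : 0 < κ) (hL : 0 < L)
    (hL₀ : 1 ≤ L₀) (hϵ : 0 ≤ ϵ) (hn : 1 ≤ n) (hd : 0 ≤ d) (hv : 0 ≤ v)
    (hl : l ≤ c / κ * (L / L₀ + Real.sqrt (L * v / L₀) + ϵ * v))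
    (hG : G ≤ v * (c / κ * (L / L₀ + Real.sqrt (L * v / L₀) + ϵ * v))) :
    (n * (v * L⁻¹) ^ (n - 1)) * (v * (-d / L ^ 2) + l * L⁻¹) +
      (n * (((n - 1 : ℕ) : ℝ) * (v * L⁻¹) ^ (n - 1 - 1))) / 2 * (G * (L⁻¹) ^ 2) ≤
      6 * n ^ 2 * (c / κ) * (1 / Real.sqrt L₀ + ϵ) * ((v * L⁻¹) ^ n + (1 / 4) ^ n) := by
  obtain ⟨x, rfl⟩ : ∃ x, v = x * L := ⟨v / L, by field_simp⟩
  have hx : 0 ≤ x := by
    by_contra h
    push Not at h
    have := mul_neg_of_neg_of_pos h hL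
    linarith
  have hL0 : L ≠ 0 := hL.ne'
  have hL₀0 : 0 < L₀ := by linarith
  have hxL : x * L * L⁻¹ = x := by field_simp
  rw [hxL]
  have hsq : Real.sqrt (L * (x * L) / L₀) = L * (Real.sqrt x / Real.sqrt L₀) := by
    rw [← Real.sqrt_div hx, show L * (x * L) / L₀ = (L * L) * (x / L₀) by ring,
      Real.sqrt_mul (by positivity), Real.sqrt_mul_self hL.le]
  have hck : 0 ≤ c / κ := div_nonneg hc hκ.le
  have hs1 : 1 ≤ Real.sqrt L₀ := Real.one_le_sqrt.2 hL₀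
  have hs0 : 0 < Real.sqrt L₀ := by linarith
  have hsx := Real.sqrt_nonneg x
  have hsL : Real.sqrt L₀ ≤ L₀ := by
    nlinarith [Real.mul_self_sqrt hL₀0.le]
  have hil : 1 / L₀ ≤ 1 / Real.sqrt L₀ := one_div_le_one_div_of_le hs0 hsL
  -- the bound `ρ`
  obtain ⟨ρ, hρ⟩ : ∃ ρ, ρ = c / κ * (1 / L₀ + Real.sqrt x / Real.sqrt L₀ + ϵ * x) := ⟨_, rfl⟩
  have hρ0 : 0 ≤ ρ := by
    rw [hρ]
    positivity
  have hR : c / κ * (L / L₀ + Real.sqrt (L * (x * L) / L₀) + ϵ * (x * L)) = L * ρ := by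
    rw [hsq, hρ]
    ring
  rw [hR] at hl hG
  have hl1 : x * L * (-d / L ^ 2) + l * L⁻¹ ≤ ρ := by
    have h1 : x * L * (-d / L ^ 2) ≤ 0 := by
      have : x * L * (-d / L ^ 2) = -(x * L * (d / L ^ 2)) := by ring
      rw [this]
      have : 0 ≤ x * L * (d / L ^ 2) := by positivity
      linarith
    have h2 : l * L⁻¹ ≤ ρ := by
      rw [← div_eq_mul_inv, div_le_iff₀ hL]
      linarith
    linarith
  have hG1 : G * L⁻¹ ^ 2 ≤ x * ρ := by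
    have h1 : G * L⁻¹ ^ 2 = G / L ^ 2 := by
      rw [inv_pow, div_eq_mul_inv]
    rw [h1, div_le_iff₀ (by positivity)]
    calc G ≤ x * L * (L * ρ) := hG
      _ = x * ρ * L ^ 2 := by ring
  have hxn : 0 ≤ x ^ (n - 1) := pow_nonneg hx _
  have hn1 : (1 : ℝ) ≤ n := by exact_mod_cast hn
  have hA : (n * x ^ (n - 1)) * (x * L * (-d / L ^ 2) + l * L⁻¹) ≤ n * (x ^ (n - 1) * ρ) := by
    calc (n * x ^ (n - 1)) * (x * L * (-d / L ^ 2) + l * L⁻¹) ≤ (n * x ^ (n - 1)) * ρ :=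
          mul_le_mul_of_nonneg_left hl1 (by positivity)
      _ = n * (x ^ (n - 1) * ρ) := by ring
  have hB : (n * (((n - 1 : ℕ) : ℝ) * x ^ (n - 1 - 1))) / 2 * (G * L⁻¹ ^ 2) ≤
      n * (n - 1) / 2 * (x ^ (n - 1) * ρ) := by
    rcases Nat.lt_or_ge n 2 with h2 | h2
    · have : n = 1 := by omega
      subst this
      simp
    · obtain ⟨k, rfl⟩ : ∃ k, n = k + 2 := ⟨n - 2, by omega⟩
      have e1 : k + 2 - 1 = k + 1 := by omega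
      have e2 : k + 1 - 1 = k := by omega
      rw [e1, e2]
      calc ((k + 2 : ℕ) * (((k + 1 : ℕ) : ℝ) * x ^ k)) / 2 * (G * L⁻¹ ^ 2)
          ≤ ((k + 2 : ℕ) * (((k + 1 : ℕ) : ℝ) * x ^ k)) / 2 * (x * ρ) :=
            mul_le_mul_of_nonneg_left hG1 (by positivity)
        _ = ((k + 2 : ℕ) : ℝ) * (((k + 2 : ℕ) : ℝ) - 1) / 2 * (x ^ (k + 1) * ρ) := by
            push_cast
            ring
  have hxρ : 0 ≤ x ^ (n - 1) * ρ := mul_nonneg hxn hρ0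
  obtain ⟨hp1, hp2⟩ := lmu_pow hx hn
  have hT : 0 ≤ x ^ n + (1 / 4) ^ n := by positivity
  have hp3 : x ^ (n - 1) * x = x ^ n := by
    rw [← pow_succ]
    congr 1
    omega
  have hF : x ^ (n - 1) * ρ ≤ c / κ * (6 * ((1 / Real.sqrt L₀ + ϵ) * (x ^ n + (1 / 4) ^ n))) := by
    have e1 : x ^ (n - 1) * ρ = c / κ * (x ^ (n - 1) * (1 / L₀) +
        (x ^ (n - 1) * Real.sqrt x) * (1 / Real.sqrt L₀) + ϵ * (x ^ (n - 1) * x)) := by
      rw [hρ]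
      ring
    rw [e1]
    refine mul_le_mul_of_nonneg_left ?_ hck
    have h1 : x ^ (n - 1) * (1 / L₀) ≤ 4 * (x ^ n + (1 / 4) ^ n) * (1 / Real.sqrt L₀) :=
      mul_le_mul hp1 hil (by positivity) (by positivity)
    have h2 : (x ^ (n - 1) * Real.sqrt x) * (1 / Real.sqrt L₀) ≤
        2 * (x ^ n + (1 / 4) ^ n) * (1 / Real.sqrt L₀) :=
      mul_le_mul_of_nonneg_right hp2 (by positivity)
    have h3 : ϵ * (x ^ (n - 1) * x) ≤ 6 * (ϵ * (x ^ n + (1 / 4) ^ n)) := by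
      rw [hp3]
      have h4 : ϵ * x ^ n ≤ ϵ * (x ^ n + (1 / 4) ^ n) :=
        mul_le_mul_of_nonneg_left (by
          have : (0 : ℝ) ≤ (1 / 4) ^ n := by positivity
          linarith) hϵ
      have h5 : 0 ≤ ϵ * (x ^ n + (1 / 4) ^ n) := mul_nonneg hϵ hT
      linarith
    calc x ^ (n - 1) * (1 / L₀) + (x ^ (n - 1) * Real.sqrt x) * (1 / Real.sqrt L₀) +
          ϵ * (x ^ (n - 1) * x) ≤ 4 * (x ^ n + (1 / 4) ^ n) * (1 / Real.sqrt L₀) +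
          2 * (x ^ n + (1 / 4) ^ n) * (1 / Real.sqrt L₀) + 6 * (ϵ * (x ^ n + (1 / 4) ^ n)) := by
            linarith
      _ = 6 * ((1 / Real.sqrt L₀ + ϵ) * (x ^ n + (1 / 4) ^ n)) := by ring
  have hnn : (n : ℝ) + n * (n - 1) / 2 ≤ n ^ 2 := by nlinarith
  calc (n * x ^ (n - 1)) * (x * L * (-d / L ^ 2) + l * L⁻¹) +
        (n * (((n - 1 : ℕ) : ℝ) * x ^ (n - 1 - 1))) / 2 * (G * L⁻¹ ^ 2)
      ≤ n * (x ^ (n - 1) * ρ) + n * (n - 1) / 2 * (x ^ (n - 1) * ρ) := add_le_add hA hB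
    _ = (n + n * (n - 1) / 2) * (x ^ (n - 1) * ρ) := by ring
    _ ≤ n ^ 2 * (x ^ (n - 1) * ρ) := mul_le_mul_of_nonneg_right hnn hxρ
    _ ≤ n ^ 2 * (c / κ * (6 * ((1 / Real.sqrt L₀ + ϵ) * (x ^ n + (1 / 4) ^ n)))) :=
        mul_le_mul_of_nonneg_left hF (by positivity)
    _ = 6 * n ^ 2 * (c / κ) * (1 / Real.sqrt L₀ + ϵ) * (x ^ n + (1 / 4) ^ n) := by ring

/-- LMU. -/
theorem lmu (jal : JalStmt) : LmuStmt := by
  intro ι _ _ q X _ F v l g Ls c κ L L₀ ϵ n hc hκ hL hL₀ hϵ hn hF hLs hLq hd hv hl hg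
  obtain ⟨-, -, hprod, -, hcomp, hsum, htime, -⟩ := jal ι ℝ q
  have hne : Ls q.1 ≠ 0 := by
    rw [hLq]
    exact hL.ne'
  have hinv := htime (fun t => (Ls t)⁻¹) (hLs.inv hne)
  have hder : deriv (fun t => (Ls t)⁻¹) q.1 = -deriv Ls q.1 / L ^ 2 := by
    rw [← hLq]
    exact ((hLs.differentiableAt (by norm_num)).hasDerivAt.inv hne).deriv
  rw [hder] at hinv
  simp only [hLq] at hinv
  have h1 : ∀ a, HJ (fun r => F a r * (Ls r.1)⁻¹) q (v a * L⁻¹)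
      (fun c => v a * 0 + g a c * L⁻¹)
      (v a * (-deriv Ls q.1 / L ^ 2) + l a * L⁻¹ + ∑ c, g a c * 0) := fun a =>
    (hprod _ _ _ _ _ _ _ _ (hF a) hinv).2.2
  have h2 := fun a => (hcomp _ _ _ _ (h1 a)).2 (fun x => x ^ n)
    ((contDiff_id.pow n).contDiffAt)
  have h3 := hsum X Finset.univ _ _ _ _ (fun a _ => h2 a)
  have e1 : (fun r : ℝ × (ι → ℝ) => ∑ a, (F a r / Ls r.1) ^ n) =
      fun r => ∑ a, (F a r * (Ls r.1)⁻¹) ^ n := by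
    funext r
    simp only [div_eq_mul_inv]
  have e2 : ∑ a, (v a / L) ^ n = ∑ a, (v a * L⁻¹) ^ n := by
    simp only [div_eq_mul_inv]
  rw [e1, e2]
  refine ⟨_, _, h3, ?_⟩
  have hd1 : ∀ x : ℝ, deriv (fun x : ℝ => x ^ n) x = n * x ^ (n - 1) := fun x =>
    (hasDerivAt_pow n x).deriv
  have hd2 : ∀ x : ℝ, deriv (deriv (fun x : ℝ => x ^ n)) x =
      n * (((n - 1 : ℕ) : ℝ) * x ^ (n - 1 - 1)) := by
    intro x
    have : deriv (fun x : ℝ => x ^ n) = fun x : ℝ => (n : ℝ) * x ^ (n - 1) := funext hd1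
    rw [this]
    exact ((hasDerivAt_pow (n - 1) x).const_mul (n : ℝ)).deriv
  rw [show 6 * (n : ℝ) ^ 2 * (c / κ) * (1 / Real.sqrt L₀ + ϵ) *
      (∑ a, (v a * L⁻¹) ^ n + Fintype.card X * (1 / 4) ^ n) =
      ∑ a, 6 * (n : ℝ) ^ 2 * (c / κ) * (1 / Real.sqrt L₀ + ϵ) *
        ((v a * L⁻¹) ^ n + (1 / 4) ^ n) by
    rw [← Finset.mul_sum, Finset.sum_add_distrib, Finset.sum_const, Finset.card_univ,
      nsmul_eq_mul]]
  refine Finset.sum_le_sum fun a _ => ?_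
  simp only [hd1, hd2, mul_zero, zero_add, Finset.sum_const_zero, add_zero]
  have h4 : ∑ c, (g a c * L⁻¹) ^ 2 = (∑ c, g a c ^ 2) * L⁻¹ ^ 2 := by
    rw [Finset.sum_mul]
    exact Finset.sum_congr rfl fun c _ => mul_pow _ _ _
  rw [h4]
  exact lmu_term hc hκ hL hL₀ hϵ hn hd (hv a) (hl a) (hg a)

end Pool.Agent.LE.QF.H65
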