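import Pool.Agent.LE.StmtsQG

/-!
# LQF, row PHB: gradient and drift of `φ`
-/

set_option autoImplicit false

open scoped BigOperators Matrix

noncomputable section

namespace Pool.Agent.LE.QF.H65

open Pool.Agent.LE.QD

/-- Minkowski's inequality in `ℓ²` with weights. -/
theorem phb_mink {X : Type} [Fintype X] (θ : X → ℂ) (R : X → X → ℂ) {C M : ℝ} (hC : 0 ≤ C)
    (hM : 0 ≤ M) (hθ : ∑ b, ‖θ b‖ ≤ C) (hR : ∀ b, ∑ c, ‖R b c‖ ^ 2 ≤ M) :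
    ∑ c, ‖∑ b, θ b * R b c‖ ^ 2 ≤ C ^ 2 * M := by
  have h0 : ∀ c, ‖∑ b, θ b * R b c‖ ^ 2 ≤ C * ∑ b, ‖θ b‖ * ‖R b c‖ ^ 2 := by
    intro c
    have h1 : ‖∑ b, θ b * R b c‖ ≤ ∑ b, ‖θ b‖ * ‖R b c‖ :=
      (norm_sum_le _ _).trans_eq (Finset.sum_congr rfl fun b _ => norm_mul _ _)
    calc ‖∑ b, θ b * R b c‖ ^ 2 ≤ (∑ b, ‖θ b‖ * ‖R b c‖) ^ 2 :=
          pow_le_pow_left₀ (norm_nonneg _) h1 2
      _ ≤ (∑ b, ‖θ b‖) * ∑ b, ‖θ b‖ * ‖R b c‖ ^ 2 :=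
          Finset.sum_sq_le_sum_mul_sum_of_sq_eq_mul _ (fun b _ => norm_nonneg _)
            (fun b _ => by positivity) (fun b _ => by ring)
      _ ≤ C * ∑ b, ‖θ b‖ * ‖R b c‖ ^ 2 :=
          mul_le_mul_of_nonneg_right hθ (Finset.sum_nonneg fun b _ => by positivity)
  calc ∑ c, ‖∑ b, θ b * R b c‖ ^ 2 ≤ ∑ c, C * ∑ b, ‖θ b‖ * ‖R b c‖ ^ 2 :=
        Finset.sum_le_sum fun c _ => h0 c
    _ = C * ∑ b, ‖θ b‖ * ∑ c, ‖R b c‖ ^ 2 := by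
        rw [← Finset.mul_sum, Finset.sum_comm]
        simp only [Finset.mul_sum]
    _ ≤ C * ∑ b, ‖θ b‖ * M :=
        mul_le_mul_of_nonneg_left (Finset.sum_le_sum fun b _ =>
          mul_le_mul_of_nonneg_left (hR b) (norm_nonneg _)) hC
    _ = C * ((∑ b, ‖θ b‖) * M) := by rw [Finset.sum_mul]
    _ ≤ C * (C * M) := mul_le_mul_of_nonneg_left (mul_le_mul_of_nonneg_right hθ hM) hC
    _ = C ^ 2 * M := by ring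

/-- A weighted sum of bounded numbers. -/
theorem phb_sup {X : Type} [Fintype X] (θ x : X → ℂ) {C M : ℝ} (hM : 0 ≤ M)
    (hθ : ∑ b, ‖θ b‖ ≤ C) (hx : ∀ b, ‖x b‖ ≤ M) : ‖∑ b, θ b * x b‖ ≤ C * M := by
  calc ‖∑ b, θ b * x b‖ ≤ ∑ b, ‖θ b * x b‖ := norm_sum_le _ _
    _ ≤ ∑ b, ‖θ b‖ * M := Finset.sum_le_sum fun b _ => by
        rw [norm_mul]
        exact mul_le_mul_of_nonneg_left (hx b) (norm_nonneg _)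
    _ = (∑ b, ‖θ b‖) * M := by rw [Finset.sum_mul]
    _ ≤ C * M := mul_le_mul_of_nonneg_right hθ hM

/-- The rows of `G + 2 τ G ∘ (G φ G)`: near and far points. -/
theorem phb_row {X : Type} [Fintype X] [DecidableEq X] {G : Matrix X X ℂ} {μ φ : X → ℂ}
    {𝒩 : X → Finset X} {κ τ δ N Λ C₀ C₁ : ℝ} (hC₀ : 1 ≤ C₀) (hC₁ : 1 ≤ C₁)
    (h : GdM G μ 𝒩 κ τ δ N C₀) (hΛ : ∀ a, ∑ b, KK G a b ^ 2 ≤ Λ)
    (hΛ' : δ ^ 2 * N + δ ^ 4 / κ ≤ Λ) (h2 : ∀ a b, ‖GD G φ a b‖ ≤ C₁ * δ / κ)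
    (h3 : ∀ a, ∑ b, ‖GD G φ a b‖ ^ 2 ≤ C₁ * δ ^ 2 / κ ^ 3) (b : X) :
    ∑ c, ‖G b c ^ 2 + 2 * τ * G b c * GD G φ b c‖ ^ 2 ≤ 10 * C₀ ^ 4 * C₁ ^ 2 * Λ := by
  obtain ⟨hκ0, hκ1, hτ0, hκτ, hτκ⟩ := h.hκ
  obtain ⟨hδ0, hδ1, hN1⟩ := h.hδ
  have hΛ0 : 0 ≤ Λ := by
    have : 0 ≤ δ ^ 2 * N + δ ^ 4 / κ := by positivity
    linarith
  have hT : ∀ c, ‖G b c ^ 2 + 2 * τ * G b c * GD G φ b c‖ ^ 2 ≤
      2 * KK G b c ^ 2 + 8 * (τ ^ 2 * (‖G b c‖ ^ 2 * ‖GD G φ b c‖ ^ 2)) := by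
    intro c
    have e1 : ‖G b c ^ 2‖ = KK G b c := by
      rw [norm_pow]
      rfl
    have e2 : ‖2 * (τ : ℂ) * G b c * GD G φ b c‖ = 2 * τ * (‖G b c‖ * ‖GD G φ b c‖) := by
      have h2n : ‖(2 : ℂ)‖ = 2 := by norm_num
      rw [norm_mul, norm_mul, norm_mul, Complex.norm_real, Real.norm_of_nonneg hτ0.le, h2n]
      ring
    have e3 : ‖G b c ^ 2 + 2 * τ * G b c * GD G φ b c‖ ≤
        KK G b c + 2 * τ * (‖G b c‖ * ‖GD G φ b c‖) := by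
      rw [← e1, ← e2]
      exact norm_add_le _ _
    have e4 : 0 ≤ ‖G b c‖ * ‖GD G φ b c‖ := by positivity
    calc ‖G b c ^ 2 + 2 * τ * G b c * GD G φ b c‖ ^ 2
        ≤ (KK G b c + 2 * τ * (‖G b c‖ * ‖GD G φ b c‖)) ^ 2 :=
          pow_le_pow_left₀ (norm_nonneg _) e3 2
      _ ≤ 2 * KK G b c ^ 2 + 8 * (τ ^ 2 * (‖G b c‖ ^ 2 * ‖GD G φ b c‖ ^ 2)) := by
          nlinarith [sq_nonneg (KK G b c - 2 * τ * (‖G b c‖ * ‖GD G φ b c‖))]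
  have hS : ∀ c, τ ^ 2 * (‖G b c‖ ^ 2 * ‖GD G φ b c‖ ^ 2) ≤
      (if c ∈ 𝒩 b then τ ^ 2 * (C₀ ^ 2 * (C₁ * δ / κ) ^ 2) else 0) +
        τ ^ 2 * ((C₀ * δ) ^ 2 * ‖GD G φ b c‖ ^ 2) := by
    intro c
    by_cases hc : c ∈ 𝒩 b
    · rw [if_pos hc]
      have h5 : ‖G b c‖ ^ 2 ≤ C₀ ^ 2 := pow_le_pow_left₀ (norm_nonneg _) (h.hG b c) 2
      have h6 : ‖GD G φ b c‖ ^ 2 ≤ (C₁ * δ / κ) ^ 2 := pow_le_pow_left₀ (norm_nonneg _) (h2 b c) 2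
      have h7 : ‖G b c‖ ^ 2 * ‖GD G φ b c‖ ^ 2 ≤ C₀ ^ 2 * (C₁ * δ / κ) ^ 2 :=
        mul_le_mul h5 h6 (by positivity) (by positivity)
      have h8 : 0 ≤ τ ^ 2 * ((C₀ * δ) ^ 2 * ‖GD G φ b c‖ ^ 2) := by positivity
      have h9 := mul_le_mul_of_nonneg_left h7 (sq_nonneg τ)
      linarith
    · rw [if_neg hc, zero_add]
      have h5 : ‖G b c‖ ^ 2 ≤ (C₀ * δ) ^ 2 :=
        pow_le_pow_left₀ (norm_nonneg _) ((h.hn b c).2 hc) 2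
      exact mul_le_mul_of_nonneg_left (mul_le_mul_of_nonneg_right h5 (by positivity))
        (sq_nonneg τ)
  have hτ2 : τ ^ 2 ≤ C₀ ^ 2 * κ ^ 2 := by
    rw [← mul_pow]
    exact pow_le_pow_left₀ hτ0.le hτκ 2
  have hC₀4 : 1 ≤ C₀ ^ 4 := one_le_pow₀ hC₀
  have hC₁2 : C₁ ≤ C₁ ^ 2 := by nlinarith
  have hsum : ∑ c, τ ^ 2 * (‖G b c‖ ^ 2 * ‖GD G φ b c‖ ^ 2) ≤ C₀ ^ 4 * C₁ ^ 2 * Λ := by
    calc ∑ c, τ ^ 2 * (‖G b c‖ ^ 2 * ‖GD G φ b c‖ ^ 2)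
        ≤ ∑ c, ((if c ∈ 𝒩 b then τ ^ 2 * (C₀ ^ 2 * (C₁ * δ / κ) ^ 2) else 0) +
          τ ^ 2 * ((C₀ * δ) ^ 2 * ‖GD G φ b c‖ ^ 2)) := Finset.sum_le_sum fun c _ => hS c
      _ = (𝒩 b).card * (τ ^ 2 * (C₀ ^ 2 * (C₁ * δ / κ) ^ 2)) +
          τ ^ 2 * ((C₀ * δ) ^ 2 * ∑ c, ‖GD G φ b c‖ ^ 2) := by
          rw [Finset.sum_add_distrib, Finset.sum_ite_mem, Finset.univ_inter, Finset.sum_const,
            nsmul_eq_mul, Finset.mul_sum, Finset.mul_sum]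
      _ ≤ N * ((C₀ ^ 2 * κ ^ 2) * (C₀ ^ 2 * (C₁ * δ / κ) ^ 2)) +
          (C₀ ^ 2 * κ ^ 2) * ((C₀ * δ) ^ 2 * (C₁ * δ ^ 2 / κ ^ 3)) := by
          refine add_le_add ?_ ?_
          · exact mul_le_mul (h.hN b) (mul_le_mul_of_nonneg_right hτ2 (by positivity))
              (by positivity) (by linarith)
          · exact mul_le_mul hτ2 (mul_le_mul_of_nonneg_left (h3 b) (by positivity))
              (mul_nonneg (by positivity) (Finset.sum_nonneg fun c _ => by positivity))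
              (by positivity)
      _ = C₀ ^ 4 * C₁ ^ 2 * (δ ^ 2 * N) + C₀ ^ 4 * C₁ * (δ ^ 4 / κ) := by
          field_simp
      _ ≤ C₀ ^ 4 * C₁ ^ 2 * (δ ^ 2 * N) + C₀ ^ 4 * C₁ ^ 2 * (δ ^ 4 / κ) := by
          refine add_le_add le_rfl (mul_le_mul_of_nonneg_right
            (mul_le_mul_of_nonneg_left hC₁2 (by positivity)) (by positivity))
      _ = C₀ ^ 4 * C₁ ^ 2 * (δ ^ 2 * N + δ ^ 4 / κ) := by ring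
      _ ≤ C₀ ^ 4 * C₁ ^ 2 * Λ := mul_le_mul_of_nonneg_left hΛ' (by positivity)
  have h1C : 1 ≤ C₀ ^ 4 * C₁ ^ 2 := by
    have : 1 ≤ C₁ ^ 2 := one_le_pow₀ hC₁
    nlinarith
  calc ∑ c, ‖G b c ^ 2 + 2 * τ * G b c * GD G φ b c‖ ^ 2
      ≤ ∑ c, (2 * KK G b c ^ 2 + 8 * (τ ^ 2 * (‖G b c‖ ^ 2 * ‖GD G φ b c‖ ^ 2))) :=
        Finset.sum_le_sum fun c _ => hT c
    _ = 2 * ∑ c, KK G b c ^ 2 + 8 * ∑ c, τ ^ 2 * (‖G b c‖ ^ 2 * ‖GD G φ b c‖ ^ 2) := by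
        rw [Finset.sum_add_distrib, Finset.mul_sum, Finset.mul_sum]
    _ ≤ 2 * Λ + 8 * (C₀ ^ 4 * C₁ ^ 2 * Λ) := by
        have := hΛ b
        linarith
    _ ≤ 10 * C₀ ^ 4 * C₁ ^ 2 * Λ := by
        have := mul_le_mul_of_nonneg_right h1C hΛ0
        linarith

/-- The rows of `G` in `ℓ²`. -/
theorem phb_k {X : Type} [Fintype X] [DecidableEq X] {G : Matrix X X ℂ} {μ : X → ℂ}
    {𝒩 : X → Finset X} {κ τ δ N C₀ : ℝ} (h : GdM G μ 𝒩 κ τ δ N C₀) (a : X) :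
    ∑ b, ‖G a b‖ ^ 2 ≤ 2 / τ := by
  obtain ⟨hκ0, hκ1, hτ0, hκτ, hτκ⟩ := h.hκ
  obtain ⟨hδ0, hδ1, hN1⟩ := h.hδ
  have h1 := (abs_le.1 (h.hk a)).2
  rw [le_div_iff₀ hτ0]
  linarith

theorem phb_sqrt {K x : ℝ} (hK : 1 ≤ K) (hx : 0 ≤ x) : Real.sqrt (K * x) ≤ K * Real.sqrt x := by
  rw [Real.sqrt_mul (by linarith)]
  refine mul_le_mul_of_nonneg_right ?_ (Real.sqrt_nonneg _)
  exact Real.sqrt_le_iff.2 ⟨by linarith, by nlinarith⟩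

/-- PHB. -/
theorem phb (nrb : NrbStmt) : PhbStmt := by
  intro C₀ hC₀
  obtain ⟨C₁, hC₁, hN⟩ := nrb C₀ hC₀
  have hC₀0 : 0 < C₀ := by linarith
  have hC₁0 : 0 < C₁ := by linarith
  have p8 : C₀ ^ 6 ≤ C₀ ^ 8 := pow_le_pow_right₀ hC₀ (by norm_num)
  have p3 : C₀ ^ 3 ≤ C₀ ^ 8 := pow_le_pow_right₀ hC₀ (by norm_num)
  have p2 : C₁ ≤ C₁ ^ 2 := by nlinarith
  have p1 : 1 ≤ C₀ ^ 8 * C₁ ^ 2 := by
    have h1 : 1 ≤ C₀ ^ 8 := one_le_pow₀ hC₀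
    have h2 : 1 ≤ C₁ ^ 2 := one_le_pow₀ hC₁
    nlinarith
  refine ⟨80 * C₀ ^ 8 * C₁ ^ 2, by nlinarith, ?_⟩
  intro X _ _ G Θ μ φ 𝒩 κ τ δ N Λ h hΘ hφ hΛ hΛ'
  obtain ⟨hκ0, hκ1, hτ0, hκτ, hτκ⟩ := h.hκ
  obtain ⟨hδ0, hδ1, hN1⟩ := h.hδ
  obtain ⟨-, hn2, hn3, -, -, -⟩ := hN X G μ 𝒩 κ τ δ N h
  have hΛ0 : 0 ≤ Λ := by
    have : 0 ≤ δ ^ 2 * N + δ ^ 4 / κ := by positivity
    linarith
  -- gradient
  have hgr : ∀ a, ∑ c, ‖QQ G Θ τ φ a c‖ ^ 2 ≤ 10 * C₀ ^ 6 * C₁ ^ 2 * Λ := by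
    intro a
    have h1 := phb_mink (Θ a) (fun b c => G b c ^ 2 + 2 * τ * G b c * GD G φ b c) hC₀0.le
      (M := 10 * C₀ ^ 4 * C₁ ^ 2 * Λ) (by positivity) (hΘ a)
      (phb_row hC₀ hC₁ h hΛ hΛ' (hn2 φ δ hδ0 hφ) (hn3 φ δ hδ0 hφ))
    have e1 : ∀ c, ‖QQ G Θ τ φ a c‖ = ‖∑ b, Θ a b * (G b c ^ 2 + 2 * τ * G b c * GD G φ b c)‖ := by
      intro c
      unfold QQ
      rw [Matrix.neg_apply, norm_neg, Matrix.mul_apply]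
      rfl
    calc ∑ c, ‖QQ G Θ τ φ a c‖ ^ 2
        = ∑ c, ‖∑ b, Θ a b * (G b c ^ 2 + 2 * τ * G b c * GD G φ b c)‖ ^ 2 :=
          Finset.sum_congr rfl fun c _ => by rw [e1]
      _ ≤ C₀ ^ 2 * (10 * C₀ ^ 4 * C₁ ^ 2 * Λ) := h1
      _ = 10 * C₀ ^ 6 * C₁ ^ 2 * Λ := by ring
  refine ⟨fun a => (hgr a).trans ?_, ?_⟩
  · refine mul_le_mul_of_nonneg_right ?_ hΛ0
    have h1 : C₀ ^ 6 * C₁ ^ 2 ≤ C₀ ^ 8 * C₁ ^ 2 := mul_le_mul_of_nonneg_right p8 (by positivity)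
    have h2 : 0 ≤ C₀ ^ 8 * C₁ ^ 2 := by positivity
    linarith
  -- drift
  intro a
  have hd1 : ∀ b, ‖(EB G μ *ᵥ φ) b‖ ≤ 2 * δ * (2 * C₁ * C₀ ^ 2 * δ / (τ * κ)) := by
    intro b
    have h1 : ‖(EB G μ *ᵥ φ) b‖ ≤ 2 * δ * ∑ y, ‖G b y‖ * ‖GD G μ b y‖ := by
      rw [Finset.mul_sum]
      refine (norm_sum_le _ _).trans (Finset.sum_le_sum fun y _ => ?_)
      have e1 : ‖EB G μ b y * φ y‖ = 2 * (‖G b y‖ * ‖GD G μ b y‖) * ‖φ y‖ := by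
        have h2n : ‖(2 : ℂ)‖ = 2 := by norm_num
        unfold EB
        rw [norm_mul, norm_mul, norm_mul, h2n]
        ring
      rw [e1]
      have h2 : 0 ≤ 2 * (‖G b y‖ * ‖GD G μ b y‖) := by positivity
      calc 2 * (‖G b y‖ * ‖GD G μ b y‖) * ‖φ y‖ ≤ 2 * (‖G b y‖ * ‖GD G μ b y‖) * δ :=
            mul_le_mul_of_nonneg_left (hφ y) h2
        _ = 2 * δ * (‖G b y‖ * ‖GD G μ b y‖) := by ring
    have h2 := Real.sum_mul_le_sqrt_mul_sqrt Finset.univ (fun y => ‖G b y‖)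
      (fun y => ‖GD G μ b y‖)
    have h3 : Real.sqrt (∑ y, ‖G b y‖ ^ 2) * Real.sqrt (∑ y, ‖GD G μ b y‖ ^ 2) ≤
        2 * C₁ * C₀ ^ 2 * δ / (τ * κ) := by
      rw [← Real.sqrt_mul (Finset.sum_nonneg fun y _ => by positivity)]
      refine Real.sqrt_le_iff.2 ⟨by positivity, ?_⟩
      have h4 : (∑ y, ‖G b y‖ ^ 2) * ∑ y, ‖GD G μ b y‖ ^ 2 ≤
          (2 / τ) * (C₁ * (C₀ * δ) ^ 2 / κ ^ 3) :=
        mul_le_mul (phb_k h b) (hn3 μ (C₀ * δ) (by positivity) h.hμ b)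
          (Finset.sum_nonneg fun y _ => by positivity) (by positivity)
      refine h4.trans ?_
      have h5 : (2 * C₁ * C₀ ^ 2 * δ / (τ * κ)) ^ 2 - (2 / τ) * (C₁ * (C₀ * δ) ^ 2 / κ ^ 3) =
          2 * C₁ * C₀ ^ 2 * δ ^ 2 / (τ ^ 2 * κ ^ 3) * (2 * C₁ * C₀ ^ 2 * κ - τ) := by
        field_simp
      have h6 : 0 ≤ 2 * C₁ * C₀ ^ 2 * κ - τ := by
        have h7 : C₀ ≤ 2 * C₁ * C₀ ^ 2 := by nlinarith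
        have h8 := mul_le_mul_of_nonneg_right h7 hκ0.le
        linarith
      have h9 : 0 ≤ 2 * C₁ * C₀ ^ 2 * δ ^ 2 / (τ ^ 2 * κ ^ 3) * (2 * C₁ * C₀ ^ 2 * κ - τ) :=
        mul_nonneg (by positivity) h6
      linarith
    exact h1.trans (mul_le_mul_of_nonneg_left (h2.trans h3) (by positivity))
  have hD1 : ‖(τ : ℂ) * (Θ *ᵥ (EB G μ *ᵥ φ)) a‖ ≤ 4 * C₁ * C₀ ^ 3 * (δ ^ 2 / κ) := by
    have h1 : ‖(Θ *ᵥ (EB G μ *ᵥ φ)) a‖ ≤ C₀ * (2 * δ * (2 * C₁ * C₀ ^ 2 * δ / (τ * κ))) :=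
      phb_sup (Θ a) (EB G μ *ᵥ φ) (by positivity) (hΘ a) hd1
    rw [norm_mul, Complex.norm_real, Real.norm_of_nonneg hτ0.le]
    calc τ * ‖(Θ *ᵥ (EB G μ *ᵥ φ)) a‖
        ≤ τ * (C₀ * (2 * δ * (2 * C₁ * C₀ ^ 2 * δ / (τ * κ)))) :=
          mul_le_mul_of_nonneg_left h1 hτ0.le
      _ = 4 * C₁ * C₀ ^ 3 * (δ ^ 2 / κ) := by
          field_simp
          ring
  have hd2 : ∀ x, ‖∑ c, ∑ y, ((τ : ℂ) • dB G c) x y * QQ G Θ τ φ y c‖ ≤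
      4 * Real.sqrt (2 * (10 * C₀ ^ 6 * C₁ ^ 2) * Λ / τ) := by
    intro x
    have h1 : ‖∑ c, ∑ y, ((τ : ℂ) • dB G c) x y * QQ G Θ τ φ y c‖ ≤
        ∑ p : X × X, 2 * τ * ((‖G x p.2‖ * ‖QQ G Θ τ φ p.2 p.1‖) * (‖G x p.1‖ * ‖G p.1 p.2‖)) := by
      rw [Fintype.sum_prod_type]
      refine (norm_sum_le _ _).trans (Finset.sum_le_sum fun c _ => ?_)
      refine (norm_sum_le _ _).trans (Finset.sum_le_sum fun y _ => le_of_eq ?_)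
      rw [Matrix.smul_apply]
      unfold dB
      have h2n : ‖(2 : ℂ)‖ = 2 := by norm_num
      rw [smul_eq_mul, norm_mul, norm_mul, norm_neg, norm_mul, norm_mul, norm_mul,
        Complex.norm_real, Real.norm_of_nonneg hτ0.le, h2n]
      ring
    have h2 := Real.sum_mul_le_sqrt_mul_sqrt (Finset.univ : Finset (X × X))
      (fun p => ‖G x p.2‖ * ‖QQ G Θ τ φ p.2 p.1‖) (fun p => ‖G x p.1‖ * ‖G p.1 p.2‖)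
    have h3 : ∑ p : X × X, (‖G x p.2‖ * ‖QQ G Θ τ φ p.2 p.1‖) ^ 2 ≤
        2 / τ * (10 * C₀ ^ 6 * C₁ ^ 2 * Λ) := by
      rw [Fintype.sum_prod_type_right]
      calc ∑ y, ∑ c, (‖G x y‖ * ‖QQ G Θ τ φ y c‖) ^ 2
          = ∑ y, ‖G x y‖ ^ 2 * ∑ c, ‖QQ G Θ τ φ y c‖ ^ 2 := by
            refine Finset.sum_congr rfl fun y _ => ?_
            rw [Finset.mul_sum]
            exact Finset.sum_congr rfl fun c _ => mul_pow _ _ _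
        _ ≤ ∑ y, ‖G x y‖ ^ 2 * (10 * C₀ ^ 6 * C₁ ^ 2 * Λ) :=
            Finset.sum_le_sum fun y _ => mul_le_mul_of_nonneg_left (hgr y) (by positivity)
        _ = (∑ y, ‖G x y‖ ^ 2) * (10 * C₀ ^ 6 * C₁ ^ 2 * Λ) := by rw [Finset.sum_mul]
        _ ≤ 2 / τ * (10 * C₀ ^ 6 * C₁ ^ 2 * Λ) :=
            mul_le_mul_of_nonneg_right (phb_k h x) (by positivity)
    have h4 : ∑ p : X × X, (‖G x p.1‖ * ‖G p.1 p.2‖) ^ 2 ≤ (2 / τ) ^ 2 := by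
      rw [Fintype.sum_prod_type]
      calc ∑ c, ∑ y, (‖G x c‖ * ‖G c y‖) ^ 2 = ∑ c, ‖G x c‖ ^ 2 * ∑ y, ‖G c y‖ ^ 2 := by
            refine Finset.sum_congr rfl fun c _ => ?_
            rw [Finset.mul_sum]
            exact Finset.sum_congr rfl fun y _ => mul_pow _ _ _
        _ ≤ ∑ c, ‖G x c‖ ^ 2 * (2 / τ) :=
            Finset.sum_le_sum fun c _ => mul_le_mul_of_nonneg_left (phb_k h c) (by positivity)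
        _ = (∑ c, ‖G x c‖ ^ 2) * (2 / τ) := by rw [Finset.sum_mul]
        _ ≤ (2 / τ) * (2 / τ) := mul_le_mul_of_nonneg_right (phb_k h x) (by positivity)
        _ = (2 / τ) ^ 2 := by ring
    have h5 : Real.sqrt (∑ p : X × X, (‖G x p.1‖ * ‖G p.1 p.2‖) ^ 2) ≤ 2 / τ :=
      Real.sqrt_le_iff.2 ⟨by positivity, h4⟩
    have h6 : Real.sqrt (∑ p : X × X, (‖G x p.2‖ * ‖QQ G Θ τ φ p.2 p.1‖) ^ 2) ≤
        Real.sqrt (2 * (10 * C₀ ^ 6 * C₁ ^ 2) * Λ / τ) := by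
      refine Real.sqrt_le_sqrt (h3.trans (le_of_eq ?_))
      ring
    calc ‖∑ c, ∑ y, ((τ : ℂ) • dB G c) x y * QQ G Θ τ φ y c‖
        ≤ ∑ p : X × X, 2 * τ * ((‖G x p.2‖ * ‖QQ G Θ τ φ p.2 p.1‖) *
          (‖G x p.1‖ * ‖G p.1 p.2‖)) := h1
      _ = 2 * τ * ∑ p : X × X, (‖G x p.2‖ * ‖QQ G Θ τ φ p.2 p.1‖) *
          (‖G x p.1‖ * ‖G p.1 p.2‖) := by rw [Finset.mul_sum]
      _ ≤ 2 * τ * (Real.sqrt (2 * (10 * C₀ ^ 6 * C₁ ^ 2) * Λ / τ) * (2 / τ)) := by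
          refine mul_le_mul_of_nonneg_left (h2.trans ?_) (by positivity)
          exact mul_le_mul h6 h5 (Real.sqrt_nonneg _) (Real.sqrt_nonneg _)
      _ = 4 * Real.sqrt (2 * (10 * C₀ ^ 6 * C₁ ^ 2) * Λ / τ) := by
          field_simp
          ring
  have hD2 : ‖∑ c, (Θ *ᵥ (((τ : ℂ) • dB G c) *ᵥ fun y => QQ G Θ τ φ y c)) a‖ ≤
      80 * C₀ ^ 8 * C₁ ^ 2 * Real.sqrt (Λ / κ) := by
    have e1 : ∑ c, (Θ *ᵥ (((τ : ℂ) • dB G c) *ᵥ fun y => QQ G Θ τ φ y c)) a =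
        ∑ x, Θ a x * ∑ c, ∑ y, ((τ : ℂ) • dB G c) x y * QQ G Θ τ φ y c := by
      have e2 : ∀ c, (Θ *ᵥ (((τ : ℂ) • dB G c) *ᵥ fun y => QQ G Θ τ φ y c)) a =
          ∑ x, Θ a x * ∑ y, ((τ : ℂ) • dB G c) x y * QQ G Θ τ φ y c := fun c => rfl
      simp only [e2]
      rw [Finset.sum_comm]
      exact Finset.sum_congr rfl fun x _ => by rw [Finset.mul_sum]
    rw [e1]
    have h1 := phb_sup (Θ a) (fun x => ∑ c, ∑ y, ((τ : ℂ) • dB G c) x y * QQ G Θ τ φ y c)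
      (M := 4 * Real.sqrt (2 * (10 * C₀ ^ 6 * C₁ ^ 2) * Λ / τ)) (by positivity) (hΘ a) hd2
    refine h1.trans ?_
    have h2 : 2 * (10 * C₀ ^ 6 * C₁ ^ 2) * Λ / τ ≤ (20 * C₀ ^ 7 * C₁ ^ 2) * (Λ / κ) := by
      have h3 : 1 / τ ≤ C₀ * (1 / κ) := by
        rw [mul_one_div, div_le_div_iff₀ hτ0 hκ0]
        linarith
      calc 2 * (10 * C₀ ^ 6 * C₁ ^ 2) * Λ / τ = 2 * (10 * C₀ ^ 6 * C₁ ^ 2) * Λ * (1 / τ) := by ring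
        _ ≤ 2 * (10 * C₀ ^ 6 * C₁ ^ 2) * Λ * (C₀ * (1 / κ)) :=
            mul_le_mul_of_nonneg_left h3 (by positivity)
        _ = (20 * C₀ ^ 7 * C₁ ^ 2) * (Λ / κ) := by ring
    have h4 : Real.sqrt (2 * (10 * C₀ ^ 6 * C₁ ^ 2) * Λ / τ) ≤
        (20 * C₀ ^ 7 * C₁ ^ 2) * Real.sqrt (Λ / κ) := by
      refine (Real.sqrt_le_sqrt h2).trans (phb_sqrt ?_ (by positivity))
      have h5 : 1 ≤ C₀ ^ 7 := one_le_pow₀ hC₀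
      have h6 : 1 ≤ C₁ ^ 2 := one_le_pow₀ hC₁
      nlinarith
    calc C₀ * (4 * Real.sqrt (2 * (10 * C₀ ^ 6 * C₁ ^ 2) * Λ / τ))
        ≤ C₀ * (4 * ((20 * C₀ ^ 7 * C₁ ^ 2) * Real.sqrt (Λ / κ))) := by
          refine mul_le_mul_of_nonneg_left (mul_le_mul_of_nonneg_left h4 (by norm_num)) hC₀0.le
      _ = 80 * C₀ ^ 8 * C₁ ^ 2 * Real.sqrt (Λ / κ) := by ring
  have hfin : 4 * C₁ * C₀ ^ 3 ≤ 80 * C₀ ^ 8 * C₁ ^ 2 := by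
    have h1 : C₁ * C₀ ^ 3 ≤ C₁ ^ 2 * C₀ ^ 8 := mul_le_mul p2 p3 (by positivity) (by positivity)
    have h2 : 0 ≤ C₁ ^ 2 * C₀ ^ 8 := by positivity
    linarith
  calc ‖lph G Θ τ φ μ a‖ ≤ ‖(τ : ℂ) * (Θ *ᵥ (EB G μ *ᵥ φ)) a‖ +
        ‖∑ c, (Θ *ᵥ (((τ : ℂ) • dB G c) *ᵥ fun y => QQ G Θ τ φ y c)) a‖ := norm_add_le _ _
    _ ≤ 4 * C₁ * C₀ ^ 3 * (δ ^ 2 / κ) + 80 * C₀ ^ 8 * C₁ ^ 2 * Real.sqrt (Λ / κ) :=
        add_le_add hD1 hD2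
    _ ≤ 80 * C₀ ^ 8 * C₁ ^ 2 * (δ ^ 2 / κ) + 80 * C₀ ^ 8 * C₁ ^ 2 * Real.sqrt (Λ / κ) :=
        add_le_add (mul_le_mul_of_nonneg_right hfin (by positivity)) le_rfl
    _ = 80 * C₀ ^ 8 * C₁ ^ 2 * (δ ^ 2 / κ + Real.sqrt (Λ / κ)) := by ring

end Pool.Agent.LE.QF.H65
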